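import Pool.Agent.MWGX.StmtsA

/-! Row KES of squad MWGX: factors of the words of `KK`. -/

set_option autoImplicit false

namespace Pool.Agent.MWGX.H53

open Pool.Agent.Helper14_MV Pool.Agent.Helper2_MV
open Pool.Agent.MWK (pre)
open Pool.Agent.MWGX
open Pool.Agent.MWGN (nn)

theorem kes : KesStmt := by
  intro w P E Q hw hK hA h3 h4 h5 hE
  obtain ⟨h1, h2⟩ := hE
  have c1 : 0 < E.count 1 := List.count_pos_iff.2 h1
  have c2 : 0 < E.count 2 := List.count_pos_iff.2 h2
  have p3 : pre w 3 = pre P 3 := MWK.pre_of_prefix hw h3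
  have b3 := hK.b3
  have b4 := hK.b4
  have b5 := hK.b5
  unfold nn at b3 b4 b5
  rw [p3] at b3
  have c3 : (pre P 3).count 2 ≤ P.count 2 := MWK.count_pre_le P 2 3
  have m4 : 4 ∈ P := by
    by_contra hn
    have e : pre w 4 = P ++ (E ++ pre Q 4) := by
      rw [hw, MWK.pre_append hn, MWK.pre_append h4]
    rw [e, List.count_append, List.count_append] at b4
    omega
  have p4 : pre w 4 = pre P 4 := MWK.pre_of_prefix hw m4
  have m5 : 5 ∈ P := by
    by_contra hn
    have e : pre w 5 = P ++ (E ++ pre Q 5) := by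
      rw [hw, MWK.pre_append hn, MWK.pre_append h5]
    have hA2 : (pre w 4).count 1 = (pre w 5).count 1 := hA
    rw [p4, e, List.count_append, List.count_append] at hA2
    have c4 : (pre P 4).count 1 ≤ P.count 1 := MWK.count_pre_le P 1 4
    omega
  have p5 : pre w 5 = pre P 5 := MWK.pre_of_prefix hw m5
  rw [p5, hw, List.count_append, List.count_append] at b5
  have c5 : (pre P 5).count 2 ≤ P.count 2 := MWK.count_pre_le P 2 5
  omega

end Pool.Agent.MWGX.H53
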